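import Pool.Agent.W516.CMF.Defs
import Pool.Agent.W655.DK.SUM

/-!
CMF-RES: the restriction of an endomorphism to a stable subspace.
-/

set_option autoImplicit false

namespace Pool.Agent.W397.CMF

open Module TensorProduct Polynomial Pool.Agent.W516.K3

theorem aeval_map {V T : Type} [AddCommGroup V] [Module ℝ V] [AddCommGroup T] [Module ℝ T]
    (i : T →ₗ[ℝ] V) (x : Module.End ℝ V) (x₁ : Module.End ℝ T) (h : ∀ t, x (i t) = i (x₁ t))
    (p : ℝ[X]) : ∀ t, aeval x p (i t) = i (aeval x₁ p t) := by
  induction p using Polynomial.induction_on' with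
  | add p q hp hq =>
    intro t
    rw [map_add, map_add, LinearMap.add_apply, LinearMap.add_apply, hp, hq, map_add]
  | monomial n a =>
    intro t
    rw [aeval_monomial, aeval_monomial, Module.End.mul_apply, Module.End.mul_apply,
      Module.algebraMap_end_apply, Module.algebraMap_end_apply, map_smul]
    congr 1
    induction n generalizing t with
    | zero => simp
    | succ n ih => rw [pow_succ, pow_succ, Module.End.mul_apply, Module.End.mul_apply, h, ih]

theorem T_RES : Pool.Agent.W516.CMF.S_RES := by
  intro V T _ _ _ _ _ _ i hi x x₁ h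
  have hp : ∀ p : ℝ[X], aeval x p = 0 → aeval x₁ p = 0 := by
    intro p hp
    ext t
    apply hi
    rw [← aeval_map i x x₁ h p t, hp]
    simp
  exact ⟨Pool.Agent.W655.DK.T_SUM.2.2.2 V T x x₁ hp, Pool.Agent.W655.DK.T_SUM.2.2.1 V T x x₁ hp⟩

end Pool.Agent.W397.CMF
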